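import Pool.Agent.N305.GL.Stm

/-!
Project GL of helper305: `u R^{p-2}` is an `A_2` weight.
-/

set_option autoImplicit false
set_option linter.all false

open MeasureTheory Set Filter Topology
open scoped ENNReal NNReal

namespace Pool.Agent.N564.GL

open Pool.Agent.N305.GL

theorem wt_WR (p : ℝ) (u : ℝ → ℝ≥0∞) (hu : Wt u) (R : ℝ → ℝ≥0∞) (hR : Measurable R)
    (hR0 : ∀ x, R x ≠ 0) : Wt (WR p u R) where
  meas := by
    unfold WR
    exact Measurable.ite (hR (measurableSet_singleton ∞)) measurable_const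
      (hu.meas.mul (hR.pow_const _))
  ne0 := fun x => by
    unfold WR
    split_ifs with h
    · exact one_ne_zero
    · exact mul_ne_zero (hu.ne0 x) (ENNReal.rpow_pos (pos_iff_ne_zero.2 (hR0 x)) h).ne'
  neT := fun x => by
    unfold WR
    split_ifs with h
    · exact ENNReal.one_ne_top
    · exact ENNReal.mul_ne_top (hu.neT x) (ENNReal.rpow_ne_top_of_ne_zero (hR0 x) h)

theorem lint_ne0 {u : ℝ → ℝ≥0∞} (hm : Measurable u) (h0 : ∀ x, u x ≠ 0) {a b : ℝ} (hab : a < b) :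
    ∫⁻ x in Ioo a b, u x ≠ 0 := by
  intro h
  rw [lintegral_eq_zero_iff hm] at h
  have h2 : volume.restrict (Ioo a b) univ = 0 := by
    have h3 : ∀ᵐ x ∂(volume.restrict (Ioo a b)), False := by
      filter_upwards [h] with x hx
      exact h0 x hx
    rw [ae_iff] at h3
    simpa using h3
  rw [Measure.restrict_apply_univ, Real.volume_Ioo] at h2
  have : 0 < ENNReal.ofReal (b - a) := ENNReal.ofReal_pos.2 (sub_pos.2 hab)
  exact absurd h2 this.ne'

theorem a2w : S_A2W := by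
  intro p Q K hp1 hp2 u hu hA R hR hR0 hRT hMX
  refine ⟨wt_WR p u hu R hR hR0, ?_⟩
  intro a b hab
  have hs : 0 < 2 - p := by linarith
  have hV0 : ENNReal.ofReal (b - a) ≠ 0 := (ENNReal.ofReal_pos.2 (sub_pos.2 hab)).ne'
  have hVT : ENNReal.ofReal (b - a) ≠ ∞ := ENNReal.ofReal_ne_top
  set V := ENNReal.ofReal (b - a) with hV
  set I := ∫⁻ x in Ioo a b, R x with hI
  set r := V⁻¹ * I with hr
  have hI0 : I ≠ 0 := lint_ne0 hR hR0 hab
  have hr0 : r ≠ 0 := mul_ne_zero (ENNReal.inv_ne_zero.2 hVT) hI0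
  have hle : ∀ x ∈ Ioo a b, r ≤ K * R x := by
    intro x hx
    refine le_trans ?_ (hMX x)
    unfold MX
    refine le_iSup_of_le a (le_iSup_of_le b (le_iSup_of_le ⟨hx.1, hx.2⟩ ?_))
    rw [Real.volume_Ioo]
  -- a point where `R` is finite
  obtain ⟨x₀, hx₀, hx₀T⟩ : ∃ x ∈ Ioo a b, R x ≠ ∞ := by
    by_contra hc
    push Not at hc
    have h1 : volume (Ioo a b) = 0 := by
      refine measure_mono_null ?_ (ae_iff.1 hRT)
      intro x hx
      simpa using hc x hx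
    rw [Real.volume_Ioo] at h1
    exact hV0 h1
  have hrT : r ≠ ∞ := by
    intro h
    have h1 := hle x₀ hx₀
    rw [h, top_le_iff] at h1
    exact ENNReal.mul_ne_top ENNReal.coe_ne_top hx₀T h1
  have hIV : I = V * r := by
    rw [hr, ← mul_assoc, ENNReal.mul_inv_cancel hV0 hVT, one_mul]
  have hK0 : (K : ℝ≥0∞) ≠ 0 := by
    intro h
    have h1 := hle x₀ hx₀
    rw [h, zero_mul, nonpos_iff_eq_zero] at h1
    exact hr0 h1
  have hrs0 : r ^ (2 - p) ≠ 0 := (ENNReal.rpow_pos (pos_iff_ne_zero.2 hr0) hrT).ne'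
  have hrsT : r ^ (2 - p) ≠ ∞ := ENNReal.rpow_ne_top_of_nonneg hs.le hrT
  have haeI : ∀ᵐ x ∂(volume.restrict (Ioo a b)), x ∈ Ioo a b := ae_restrict_mem measurableSet_Ioo
  have haeT : ∀ᵐ x ∂(volume.restrict (Ioo a b)), R x ≠ ∞ := ae_restrict_of_ae hRT
  -- first integral
  have h1 : ∫⁻ x in Ioo a b, WR p u R x ≤
      ((K : ℝ≥0∞) ^ (2 - p) * (r ^ (2 - p))⁻¹) * ∫⁻ x in Ioo a b, u x := by
    rw [← lintegral_const_mul _ hu.meas]
    refine lintegral_mono_ae ?_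
    filter_upwards [haeI, haeT] with x hx hxT
    unfold WR
    rw [if_neg hxT, mul_comm]
    refine mul_le_mul_left ?_ _
    have h2 : R x ^ (p - 2) = (R x ^ (2 - p))⁻¹ := by
      rw [← ENNReal.rpow_neg]; congr 1; ring
    rw [h2]
    have h3 : r ^ (2 - p) ≤ (K : ℝ≥0∞) ^ (2 - p) * R x ^ (2 - p) := by
      rw [← ENNReal.mul_rpow_of_nonneg _ _ hs.le]
      exact ENNReal.rpow_le_rpow (hle x hx) hs.le
    have hR1 : R x ^ (2 - p) ≠ 0 := (ENNReal.rpow_pos (pos_iff_ne_zero.2 (hR0 x)) hxT).ne'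
    have hR2 : R x ^ (2 - p) ≠ ∞ := ENNReal.rpow_ne_top_of_nonneg hs.le hxT
    rw [← div_eq_mul_inv, ENNReal.le_div_iff_mul_le (Or.inl hrs0) (Or.inl hrsT),
      ENNReal.inv_mul_le_iff hR1 hR2, mul_comm (R x ^ (2 - p))]
    exact h3
  -- second integral
  have h2 : ∫⁻ x in Ioo a b, WR p u R x ^ (-1 / ((2 : ℝ) - 1)) ≤
      (∫⁻ x in Ioo a b, u x ^ (-1 / (p - 1))) ^ (p - 1) * I ^ (2 - p) := by
    have hconj : Real.HolderConjugate (1 / (p - 1)) (1 / (2 - p)) := by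
      rw [Real.holderConjugate_iff]
      refine ⟨?_, ?_⟩
      · rw [lt_div_iff₀ (by linarith)]; linarith
      · rw [one_div, inv_inv, one_div, inv_inv]; ring
    have h3 := ENNReal.lintegral_mul_le_Lp_mul_Lq (volume.restrict (Ioo a b)) hconj
      (f := fun x => (u x)⁻¹) (g := fun x => R x ^ (2 - p)) hu.meas.inv.aemeasurable
      (hR.pow_const _).aemeasurable
    have h4 : ∫⁻ x in Ioo a b, WR p u R x ^ (-1 / ((2 : ℝ) - 1)) =
        ∫⁻ x in Ioo a b, ((fun x => (u x)⁻¹) * fun x => R x ^ (2 - p)) x := by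
      refine lintegral_congr_ae ?_
      filter_upwards [haeT] with x hxT
      have e1 : (-1 / ((2 : ℝ) - 1)) = -1 := by norm_num
      rw [e1, ENNReal.rpow_neg_one]
      unfold WR
      rw [if_neg hxT]
      have hR1 : R x ^ (p - 2) ≠ 0 := (ENNReal.rpow_pos (pos_iff_ne_zero.2 (hR0 x)) hxT).ne'
      have hR2 : R x ^ (p - 2) ≠ ∞ := ENNReal.rpow_ne_top_of_ne_zero (hR0 x) hxT
      rw [ENNReal.mul_inv (Or.inl (hu.ne0 x)) (Or.inl (hu.neT x)), Pi.mul_apply]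
      congr 1
      rw [← ENNReal.rpow_neg]; congr 1; ring
    rw [h4]
    refine h3.trans (le_of_eq ?_)
    congr 1
    · congr 1
      · refine lintegral_congr fun x => ?_
        rw [ENNReal.inv_rpow, ← ENNReal.rpow_neg]
        congr 1
        ring
      · rw [one_div, inv_eq_one_div, div_div_eq_mul_div]; ring
    · rw [one_div, one_div, inv_inv]
      congr 1
      rw [hI]
      refine lintegral_congr fun x => ?_
      rw [← ENNReal.rpow_mul, mul_inv_cancel₀ hs.ne', ENNReal.rpow_one]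
  have h5 := hA a b hab
  have e2 : ((2 : ℝ) - 1) = 1 := by norm_num
  rw [← hV] at h5
  clear_value r I V
  calc (∫⁻ x in Ioo a b, WR p u R x) *
        (∫⁻ x in Ioo a b, WR p u R x ^ (-1 / ((2 : ℝ) - 1))) ^ ((2 : ℝ) - 1)
      ≤ (((K : ℝ≥0∞) ^ (2 - p) * (r ^ (2 - p))⁻¹) * ∫⁻ x in Ioo a b, u x) *
        ((∫⁻ x in Ioo a b, u x ^ (-1 / (p - 1))) ^ (p - 1) * I ^ (2 - p)) := by
        refine mul_le_mul' h1 ?_
        rw [show (∫⁻ x in Ioo a b, WR p u R x ^ (-1 / ((2 : ℝ) - 1))) ^ ((2 : ℝ) - 1) =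
          (∫⁻ x in Ioo a b, WR p u R x ^ (-1 / ((2 : ℝ) - 1))) ^ (1 : ℝ) by rw [e2],
          ENNReal.rpow_one]
        exact h2
    _ = (K : ℝ≥0∞) ^ (2 - p) * V ^ (2 - p) * ((∫⁻ x in Ioo a b, u x) *
        (∫⁻ x in Ioo a b, u x ^ (-1 / (p - 1))) ^ (p - 1)) * ((r ^ (2 - p))⁻¹ * r ^ (2 - p)) := by
        rw [hIV, ENNReal.mul_rpow_of_nonneg _ _ hs.le]
        ring
    _ = (K : ℝ≥0∞) ^ (2 - p) * V ^ (2 - p) * ((∫⁻ x in Ioo a b, u x) *
        (∫⁻ x in Ioo a b, u x ^ (-1 / (p - 1))) ^ (p - 1)) := by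
        rw [ENNReal.inv_mul_cancel hrs0 hrsT, mul_one]
    _ ≤ (K : ℝ≥0∞) ^ (2 - p) * V ^ (2 - p) * (Q * V ^ p) := mul_le_mul_right h5 _
    _ = (K : ℝ≥0∞) ^ (2 - p) * Q * V ^ (2 : ℝ) := by
        rw [show (2 : ℝ) = (2 - p) + p by ring, ENNReal.rpow_add _ _ hV0 hVT]
        have e3 : (2 - p + p - p) = 2 - p := by ring
        rw [e3]
        ring

end Pool.Agent.N564.GL
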